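import Pool.Agent.RL2.Main

/-!
# The global dichotomy

The argument of `RL2.Thm`, with two sets of parameters. Let `S₁`, `T₁` be theories of the class
(with a universal formula `μ₁` and a formalisation `P₁`), and let `S₂`, `T₂`, `μ₂`, `P₂` be others.
The presentations `ck k` of `T₁` watch for successes (constructions of `S₁`-proofs of their
reflection sentences by programs with advice) and for short `S₂`-proofs of the reflection sentences
of the presentations `prog D` of `T₂`; `prog D` reports a failure of the program described by `D`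
to output an `S₁`-proof of a reflection sentence of `ck k`. So either no polynomial-time function
constructs `S₁`-proofs for any `ck k`, or all `S₂`-proofs are long.
-/

namespace Pool.Agent.RL3

open Pool.Agent.H19 Pool.Agent.H19.T Pool.Agent.RL Pool.Agent.RL2

section
variable (S₁ S₂ : Set Fm) (μ₁ μ₂ : Fm) (fP₁ fP₂ f₁ : T → T) (cG₁ cM₁ cm cL cM cn : Code)
  (β m₁ C₀ : ℕ)

open Classical in
/-- The inner decider; its argument is `node (node (unary k) (node x w)) g`. -/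
noncomputable def EE (z : T) : T :=
  if (falsum (unfalsum z.left.right.left)).enc = z.left.right.left ∧
    (Success S₂ μ₂ fP₂ cG₁ cM₁ cm cL β m₁ (unfalsum z.left.right.left)
        (Qk cM cn C₀ z.right z.left.left.len) ∨
      SuccF S₁ μ₁ fP₁ m₁ (unfalsum z.left.right.left) z.left.right.right
        (Qk cM cn C₀ z.right z.left.left.len))
  then T.node T.leaf T.leaf else f₁ z.left.right.left

end

theorem EE_polyTime {S₁ S₂ : Set Fm} {μ₁ μ₂ : Fm} {fP₁ fP₂ f₁ : T → T}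
    {cG₁ cM₁ cm cL cM cn : Code} {β m₁ C₀ : ℕ} (hS₁ : DecTh S₁) (hS₂ : DecTh S₂)
    (hfP₁ : PolyTime fP₁) (hfP₂ : PolyTime fP₂) (hf₁ : PolyTime f₁) :
    PolyTime (EE S₁ S₂ μ₁ μ₂ fP₁ fP₂ f₁ cG₁ cM₁ cm cL cM cn β m₁ C₀) := by
  have i := PolyTime.id
  have hx : PolyTime (fun z : T => z.left.right.left) := i.left.right.left
  have hv : PolyTime (fun z : T => unfalsum z.left.right.left) :=
    uu_polyTime.comp hx.right.left.right.left
  have hq : PolyTime (fun z : T => Qk cM cn C₀ z.right z.left.left.len) :=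
    Qk_polyTime cM cn C₀ i.right (PolyNat.len i.left.left)
  have hdec := (PolyDec.eq (falsum_polyTime.comp hv) hx).and
    ((success_polyDec (μ := μ₂) (cG := cG₁) (cM := cM₁) (cm := cm) (cL := cL) (β := β) (m₁ := m₁)
      hS₂ hfP₂ hv hq).or (succF_polyDec (μ := μ₁) (m₁ := m₁) hS₁ hfP₁ hv i.left.right.right hq))
  refine (PolyTime.ifP hdec (PolyTime.const (T.node T.leaf T.leaf)) (hf₁.comp hx)).congr
    fun z => ?_
  unfold EE
  split_ifs <;> rfl

/-- A provable reflection sentence excludes additional axioms. -/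
theorem key {μ : Fm} (hμ : IsUniversal μ) {P : Code → ℕ → Fm} (hP : IsFormalisation μ P)
    {S : Set Fm} (hS : InClassT S) : ∃ m : ℕ, ∀ (c : Code) (κ : ℕ) (v : T) (n : ℕ),
      falsum v ∈ theory c κ → 65 * v.size + m ≤ n → ¬ Provable S (rfn (P c κ) μ n) := by
  obtain ⟨e₀, z₀, hfalse⟩ := hμ.false_instance
  obtain ⟨hSc, fS, _, hSf⟩ := hS
  have hSS : S12 ⊆ S := fun φ hφ => (hSf φ).2 (Or.inl hφ)
  have hμb : μ.bdd = true := (Fm.bdd_of _).1 hμ.1
  let φ₀ : Fm := inst3 μ e₀ 0 z₀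
  refine ⟨7 * φ₀.enc.size + 1001 + e₀.size + z₀.size, ?_⟩
  intro c κ v n hmem hn hp
  have hsize := refute_size v φ₀
  have hnum := T.num_size (encProof (refute v φ₀))
  have hcorrect : (P c κ).sat stdN (vec4 e₀ 0 z₀ (encProof (refute v φ₀)).num) :=
    (hP.correct c κ e₀ 0 z₀ _).2 ⟨_, rfl, refute_isProof hmem φ₀⟩
  have hPb : (P c κ).bdd = true := (Fm.bdd_of _).1 (hP.delta c κ).1
  have h1 := rfn_sound hSS hSc hPb hμb hp (e := e₀) (x := 0) (z := z₀)
    (u := (encProof (refute v φ₀)).num)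
    (by omega) (by simp) (by omega)
    (by rw [hnum]; omega) hcorrect
  refine hfalse ((Fm.sat_congr_below stdN μ hμ.2.1 (fun i hi => ?_)).1 h1)
  rcases i with _ | _ | _ | i
  · rfl
  · rfl
  · rfl
  · omega

/-- **Main theorem.** -/
theorem mixed (μ₁ : Fm) (hμ₁ : IsUniversal μ₁) (P₁ : Code → ℕ → Fm)
    (hP₁ : IsFormalisation μ₁ P₁) (S₁ T₁ : Set Fm) (hS₁ : InClassT S₁) (hT₁ : InClassT T₁)
    (μ₂ : Fm) (hμ₂ : IsUniversal μ₂) (P₂ : Code → ℕ → Fm)
    (hP₂ : IsFormalisation μ₂ P₂) (S₂ T₂ : Set Fm) (hS₂ : InClassT S₂) (hT₂ : InClassT T₂) :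
    (∃ d : ℕ, ∀ k : ℕ, ∃ (c : Code) (κ : ℕ), κ ≤ d * (k + 1) ∧ HaltsWithin c κ ∧
      theory c κ = T₁ ∧
      (¬ ∃ f : T → T, PolyTime f ∧ ∃ n₀ : ℕ, ∀ n ≥ n₀, ∃ π : List Step,
        f (T.unary n) = encProof π ∧ IsProof S₁ π (rfn (P₁ c κ) μ₁ n)) ∧
      ∀ a : Code, ∃ n₀ : ℕ, ∀ n ≥ n₀, ∀ w : T, 500 * w.size ≤ n →
        ∀ (y : T) (t : ℕ), Eval a (T.node (T.unary n) w) y t → t ≤ n ^ k →
          ∀ π : List Step, y = encProof π → ¬ IsProof S₁ π (rfn (P₁ c κ) μ₁ n)) ∨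
    (∃ d : ℕ, ∀ k : ℕ, ∃ (c : Code) (κ : ℕ), κ ≤ d * (k + 1) ∧ HaltsWithin c κ ∧
      theory c κ = T₂ ∧
      ∃ n₀ : ℕ, ∀ n ≥ n₀, ∀ π : List Step, IsProof S₂ π (rfn (P₂ c κ) μ₂ n) →
        n ^ k < (encProof π).size) := by
  obtain ⟨K₁, hkey₁⟩ := key hμ₁ hP₁ hS₁
  obtain ⟨K₂, hkey₂⟩ := key hμ₂ hP₂ hS₂
  obtain ⟨fP₁, hfP₁, hfPc₁⟩ := hP₁.poly
  obtain ⟨fP₂, hfP₂, hfPc₂⟩ := hP₂.poly
  obtain ⟨hc₁, f₁, hf₁, hT₁f⟩ := hT₁
  obtain ⟨hc₂, f₂, hf₂, hT₂f⟩ := hT₂
  have hSdec₁ := DecTh.of_inClassT hS₁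
  have hSdec₂ := DecTh.of_inClassT hS₂
  obtain ⟨m₁, hm₁⟩ : ∃ m₁ : ℕ, m₁ = 3 * (K₁ + K₂ + 30000) := ⟨_, rfl⟩
  -- the theory which reports failures
  obtain ⟨cG₁, cM₁, cm, cL, β, hprog⟩ := prog_cost (μ := μ₁) hSdec₁ hfP₁ hf₂
  have haccP : ∀ D x : T, Accepts (prog cG₁ cM₁ cm cL D) (kap β D) x ↔
      GG S₁ μ₁ fP₁ f₂ (T.node D (T.node x (WW D x))) ≠ T.leaf := by
    intro D x
    obtain ⟨t, ht, hb⟩ := hprog D x
    exact accepts_iff ht hb
  -- the uniform family
  have i := PolyTime.id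
  obtain ⟨cM, kM, hM⟩ := mulU_polyTime₂
  obtain ⟨cn, kn, hn⟩ : PolyTime (fun x => T.unary (nOf (unfalsum x))) := by
    have hv : PolyTime (fun x => unfalsum x) := uu_polyTime.comp i.right.left.right.left
    exact ((PolyNat.const 200).mul (PolyNat.len hv.right.left)).add (PolyNat.len hv.right.right)
  obtain ⟨C₀, hC₀⟩ := exponent_boundK kn kM
  obtain ⟨cG, κG, hG⟩ := recursion (EE_polyTime (μ₁ := μ₁) (μ₂ := μ₂) (cG₁ := cG₁) (cM₁ := cM₁)
    (cm := cm) (cL := cL) (cM := cM) (cn := cn) (β := β) (m₁ := m₁) (C₀ := C₀) hSdec₁ hSdec₂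
    hfP₁ hfP₂ hf₁)
  obtain ⟨g, hg⟩ : ∃ g, g = T.node cG.enc (T.unary κG) := ⟨_, rfl⟩
  obtain ⟨ck, hck⟩ : ∃ ck : ℕ → Code, ∀ k, ck k = progK cG cM cn k := ⟨_, fun _ => rfl⟩
  obtain ⟨κk, hκk⟩ : ∃ κk : ℕ → ℕ, ∀ k, κk k = C₀ * (κG + 1) * (k + 3) := ⟨_, fun _ => rfl⟩
  have hQk : ∀ k, Qk cM cn C₀ g k = T.node (ck k).enc (T.unary (κk k)) := by
    intro k
    rw [Qk, hg, T.left_node, T.right_node, T.len_unary, progKE_eq, hck, hκk]
  have hcost : ∀ (k : ℕ) (x : T), ∃ t : ℕ, Eval (ck k) x (EE S₁ S₂ μ₁ μ₂ fP₁ fP₂ f₁ cG₁ cM₁ cm cL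
      cM cn β m₁ C₀ (T.node (T.node (T.unary k) (T.node x (T.unary (nOf (unfalsum x) ^ k)))) g)) t ∧
      t ≤ (x.size + 2) ^ (κk k) := by
    intro k x
    rw [hck, hκk, hg]
    exact progK_cost hM hn hC₀ (F := fun y => EE S₁ S₂ μ₁ μ₂ fP₁ fP₂ f₁ cG₁ cM₁ cm cL cM cn β m₁ C₀
      (T.node y (T.node cG.enc (T.unary κG)))) hG k x
  have hacc : ∀ (k : ℕ) (x : T), Accepts (ck k) (κk k) x ↔
      EE S₁ S₂ μ₁ μ₂ fP₁ fP₂ f₁ cG₁ cM₁ cm cL cM cn β m₁ C₀
      (T.node (T.node (T.unary k) (T.node x (T.unary (nOf (unfalsum x) ^ k)))) g) ≠ T.leaf := by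
    intro k x
    obtain ⟨t, ht, hb⟩ := hcost k x
    exact accepts_iff ht hb
  have hPq : ∀ k, fP₁ (Qk cM cn C₀ g k) = (P₁ (ck k) (κk k)).enc := by
    intro k
    rw [hQk]
    exact hfPc₁ _ _
  -- there is no success
  have hno : ∀ (k : ℕ) (v : T),
      ¬ (Success S₂ μ₂ fP₂ cG₁ cM₁ cm cL β m₁ v (Qk cM cn C₀ g k) ∨
        SuccF S₁ μ₁ fP₁ m₁ v (T.unary (nOf v ^ k)) (Qk cM cn C₀ g k)) := by
    intro k v hv
    have hmem : falsum v ∈ theory (ck k) (κk k) := by
      refine Or.inr ((hacc k _).2 ?_)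
      have : EE S₁ S₂ μ₁ μ₂ fP₁ fP₂ f₁ cG₁ cM₁ cm cL cM cn β m₁ C₀ (T.node (T.node (T.unary k)
          (T.node (falsum v).enc (T.unary (nOf (unfalsum (falsum v).enc) ^ k)))) g) =
          T.node T.leaf T.leaf := by
        simp only [EE, T.left_node, T.right_node]
        rw [if_pos]
        refine ⟨by rw [unfalsum_enc], ?_⟩
        rw [unfalsum_enc, T.len_unary]
        exact hv
      rw [this]; simp
    rcases hv with hv | hv
    · obtain ⟨hv1, hv2, hv3, hv4⟩ := hv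
      obtain ⟨D, hD⟩ : ∃ D, D = T.node v.left (Qk cM cn C₀ g k) := ⟨_, rfl⟩
      rw [← hD, progE_eq, hfPc₂, decFm_enc] at hv4
      obtain ⟨m, hm⟩ : ∃ m, m = v.right.left.len := ⟨_, rfl⟩
      rw [← hm] at hv1 hv2 hv3 hv4
      -- the theory which reports failures does not report a failure
      have h1 : ¬ Fails S₁ μ₁ fP₁ D (T.node (T.unary (m / 200)) (T.unary (m % 200)))
          (WW D (falsum (T.node (T.unary (m / 200)) (T.unary (m % 200)))).enc) := by
        intro hF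
        refine hkey₂ (prog cG₁ cM₁ cm cL D) (kap β D)
          (T.node (T.unary (m / 200)) (T.unary (m % 200))) m ?_ ?_ ⟨_, hv4⟩
        · refine Or.inr ((haccP _ _).2 ?_)
          have : GG S₁ μ₁ fP₁ f₂ (T.node D (T.node
              (falsum (T.node (T.unary (m / 200)) (T.unary (m % 200)))).enc
              (WW D (falsum (T.node (T.unary (m / 200)) (T.unary (m % 200)))).enc))) =
              T.node T.leaf T.leaf := by
            simp only [GG, T.left_node, T.right_node]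
            rw [if_pos]
            exact ⟨by rw [unfalsum_enc], by rw [unfalsum_enc]; exact hF⟩
          rw [this]; simp
        · simp only [T.size, T.size_unary]
          omega
      have hmOf : mOf (T.node (T.unary (m / 200)) (T.unary (m % 200))) = m := by
        simp only [mOf, T.left_node, T.right_node, T.len_unary]; omega
      have h2 : IsProof S₁ (decProof (simul (T.node D.left.left.left
          (WW D (falsum (T.node (T.unary (m / 200)) (T.unary (m % 200)))).enc))))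
          (rfn (P₁ (ck k) (κk k)) μ₁ (m ^ v.left.right.left.len)) := by
        by_contra hcon
        refine h1 ⟨?_, ?_⟩
        · rw [hmOf, hD, T.left_node]; exact hv2
        · rw [hD, T.right_node, hPq, decFm_enc, ← hD]
          have : (WW D (falsum (T.node (T.unary (m / 200))
              (T.unary (m % 200)))).enc).left.len = m ^ v.left.right.left.len := by
            simp only [WW, T.left_node, T.len_unary]
            rw [unfalsum_enc, hmOf, hD, T.left_node]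
          rw [this]
          exact hcon
      exact hkey₁ (ck k) (κk k) v _ hmem (by omega) ⟨_, h2⟩
    · obtain ⟨hv1, hv2, hv3⟩ := hv
      rw [hPq, decFm_enc] at hv3
      have hnv : nOf v = 200 * v.right.left.len + v.right.right.len := rfl
      exact hkey₁ (ck k) (κk k) v (nOf v) hmem (by rw [hnv]; omega) ⟨_, hv3⟩
  have hhalt : ∀ k, HaltsWithin (ck k) (κk k) := fun k x => ⟨_, hcost k x⟩
  have hth : ∀ k, theory (ck k) (κk k) = T₁ := by
    intro k
    ext φ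
    rw [hT₁f]
    show (φ ∈ S12 ∨ Accepts (ck k) (κk k) φ.enc) ↔ _
    rw [hacc]
    have : EE S₁ S₂ μ₁ μ₂ fP₁ fP₂ f₁ cG₁ cM₁ cm cL cM cn β m₁ C₀ (T.node (T.node (T.unary k)
        (T.node φ.enc (T.unary (nOf (unfalsum φ.enc) ^ k)))) g) = f₁ φ.enc := by
      simp only [EE, T.left_node, T.right_node]
      rw [if_neg]
      rintro ⟨_, h⟩
      rw [T.len_unary] at h
      exact hno k _ h
    rw [this]
  -- the fixed exponent version
  have hfix : ∀ k : ℕ, ∀ a : Code, ∃ n₀ : ℕ, ∀ n ≥ n₀, ∀ w : T, 500 * w.size ≤ n →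
      ∀ (y : T) (t : ℕ), Eval a (T.node (T.unary n) w) y t → t ≤ n ^ k →
        ∀ π : List Step, y = encProof π → ¬ IsProof S₁ π (rfn (P₁ (ck k) (κk k)) μ₁ n) := by
    intro k a
    refine ⟨600 * (m₁ + a.enc.size + 1000), fun n hn w hw y t hy ht π hπ hproof => ?_⟩
    let m : ℕ := n / 200
    let r : ℕ := n % 200
    let v : T := T.node (T.node a.enc w) (T.node (T.unary m) (T.unary r))
    have hnv : nOf v = n := by
      simp only [nOf, v, T.right_node, T.left_node, T.len_unary, m, r]; omega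
    refine hno k v (Or.inr ⟨?_, ?_, ?_⟩)
    · simp only [v, T.right_node, T.left_node, T.len_unary, m]; omega
    · simp only [v, T.right_node, T.left_node, T.len_unary, T.size, T.size_unary, m, r]
      omega
    · rw [hnv]
      have h1 : outW v (T.unary (n ^ k)) = y := by
        simp only [outW, hnv]
        exact simul_spec hy ht
      rw [h1, hπ, decProof_enc, hPq, decFm_enc]
      exact hproof
  by_cases hf : ∃ k₀ : ℕ, ∃ f : T → T, PolyTime f ∧ ∃ n₀ : ℕ, ∀ n ≥ n₀, ∃ π : List Step,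
      f (T.unary n) = encProof π ∧ IsProof S₁ π (rfn (P₁ (ck k₀) (κk k₀)) μ₁ n)
  swap
  · refine Or.inl ⟨3 * (C₀ * (κG + 1)), fun k => ⟨ck k, κk k, ?_, hhalt k, hth k,
      fun h => hf ⟨k, h⟩, hfix k⟩⟩
    rw [hκk]
    calc C₀ * (κG + 1) * (k + 3) ≤ C₀ * (κG + 1) * (3 * (k + 1)) :=
          Nat.mul_le_mul_left _ (by omega)
      _ = _ := by ring
  right
  obtain ⟨k₀, f, ⟨a, j, ha⟩, n₀, hn₀⟩ := hf
  obtain ⟨q, hq⟩ : ∃ q, q = Qk cM cn C₀ g k₀ := ⟨_, rfl⟩
  have hPq₀ : fP₁ q = (P₁ (ck k₀) (κk k₀)).enc := by rw [hq]; exact hPq k₀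
  refine ⟨β * (5 * (j + 3) + (a.enc.size + 2 * j + 2 * n₀ + q.size + 20)), fun k => ?_⟩
  obtain ⟨D₀, hD₀⟩ : ∃ D₀ : T, D₀ = T.node (T.node a.enc (T.unary j))
    (T.node (T.unary (k + 2)) (T.unary (n₀ + 1))) := ⟨_, rfl⟩
  obtain ⟨D, hD⟩ : ∃ D, D = T.node D₀ q := ⟨_, rfl⟩
  -- the proofs are long
  have hlong : ∃ N : ℕ, ∀ n ≥ N, ∀ π : List Step,
      IsProof S₂ π (rfn (P₂ (prog cG₁ cM₁ cm cL D) (kap β D)) μ₂ n) →
        n ^ k < (encProof π).size := by
    refine ⟨100 * D₀.size + m₁ + 1000, fun m hm π hπ => ?_⟩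
    by_contra hcon
    have hcon' : (encProof π).size ≤ m ^ k := by omega
    refine hno k₀ (T.node D₀ (T.node (T.unary m) (encProof π))) (Or.inl ⟨?_, ?_, ?_, ?_⟩)
    · simp only [T.left_node, T.right_node, T.len_unary]; omega
    · have h1 : n₀ + 1 ≤ D₀.size := by
        rw [hD₀]; simp only [T.size, T.size_unary]; omega
      have h2 : D₀.right.right.len = n₀ + 1 := by
        rw [hD₀]; simp only [T.right_node, T.len_unary]
      simp only [T.left_node, T.right_node, T.len_unary]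
      rw [h2]
      omega
    · have h2 : D₀.right.left.len = k + 2 := by
        rw [hD₀]; simp only [T.left_node, T.right_node, T.len_unary]
      simp only [T.left_node, T.right_node, T.len_unary, T.size, T.size_unary]
      rw [h2]
      have h3 : 1 ≤ m ^ k := Nat.one_le_pow _ _ (by omega)
      have h4 : m ^ (k + 2) = m ^ k * (m * m) := by ring
      have h5 : 100 * D₀.size + m₁ + 700 + 200 * m ≤ m * m := by
        have : (100 * D₀.size + m₁ + 1000) * m ≤ m * m := Nat.mul_le_mul_right _ hm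
        have h6 : 1 ≤ m := by omega
        nlinarith [Nat.mul_le_mul_left (100 * D₀.size + m₁ + 700) h6]
      rw [h4]
      have h7 : m ^ k * (100 * D₀.size + m₁ + 700 + 200 * m) ≤ m ^ k * (m * m) :=
        Nat.mul_le_mul_left _ h5
      have h8 : (100 * D₀.size + m₁ + 600 + 200 * m) ≤
          m ^ k * (100 * D₀.size + m₁ + 600 + 200 * m) := Nat.le_mul_of_pos_left _ (by omega)
      have h9 : m ^ k * (100 * D₀.size + m₁ + 700 + 200 * m) =
          m ^ k * (100 * D₀.size + m₁ + 600 + 200 * m) + 100 * m ^ k := by ring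
      omega
    · simp only [T.left_node, T.right_node, T.len_unary]
      rw [← hq, ← hD, progE_eq, hfPc₂, decFm_enc, decProof_enc]
      exact hπ
  refine ⟨prog cG₁ cM₁ cm cL D, kap β D, ?_, fun x => ⟨_, hprog D x⟩, ?_, hlong⟩
  · -- the clock
    have h1 : (k + 2 + 3) * (j + 3) ≤ 5 * (j + 3) * (k + 1) := by nlinarith [Nat.zero_le (k * j)]
    have h2 : D.size ≤ (a.enc.size + 2 * j + 2 * n₀ + q.size + 20) * (k + 1) := by
      have h3 : D.size = a.enc.size + 2 * j + 2 * n₀ + q.size + 2 * k + 13 := by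
        rw [hD, hD₀]
        simp only [T.size, T.size_unary]; omega
      rw [h3]
      nlinarith [Nat.zero_le (a.enc.size * k), Nat.zero_le (j * k), Nat.zero_le (n₀ * k),
        Nat.zero_le (q.size * k)]
    have h4 : D.left.right.left.len = k + 2 := by
      rw [hD, hD₀]; simp only [T.left_node, T.right_node, T.len_unary]
    have h5 : D.left.left.right.len = j := by
      rw [hD, hD₀]; simp only [T.left_node, T.right_node, T.len_unary]
    rw [kap, h4, h5]
    calc β * ((k + 2 + 3) * (j + 3) + D.size)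
        ≤ β * (5 * (j + 3) * (k + 1) +
          (a.enc.size + 2 * j + 2 * n₀ + q.size + 20) * (k + 1)) :=
          Nat.mul_le_mul_left _ (by omega)
      _ = _ := by ring
  · -- the theory
    ext φ
    rw [hT₂f]
    show (φ ∈ S12 ∨ Accepts _ _ φ.enc) ↔ _
    rw [haccP]
    have : GG S₁ μ₁ fP₁ f₂ (T.node D (T.node φ.enc (WW D φ.enc))) = f₂ φ.enc := by
      simp only [GG, T.left_node, T.right_node]
      rw [if_neg]
      rintro ⟨_, h1, h2⟩
      apply h2
      obtain ⟨m, hm⟩ : ∃ m, m = mOf (unfalsum φ.enc) := ⟨_, rfl⟩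
      rw [← hm] at h1
      have e1 : D.left.left.left = a.enc := by rw [hD, hD₀]; simp only [T.left_node]
      have e2 : D.right = q := by rw [hD]; rfl
      have e3 : WW D φ.enc = T.node (T.unary (m ^ (k + 2)))
          (T.unary ((2 * m ^ (k + 2) + 3) ^ j)) := by
        rw [WW, ← hm, hD, hD₀]
        simp only [T.left_node, T.right_node, T.len_unary]
      have e4 : n₀ + 1 ≤ m := by
        rw [hD, hD₀] at h1
        simpa only [T.left_node, T.right_node, T.len_unary] using h1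
      have e5 : n₀ ≤ m ^ (k + 2) := by
        calc n₀ ≤ m := by omega
          _ = m ^ 1 := (pow_one m).symm
          _ ≤ m ^ (k + 2) := Nat.pow_le_pow_right (by omega) (by omega)
      obtain ⟨π, hπ, hpf⟩ := hn₀ _ e5
      obtain ⟨t, ht, hb⟩ := ha (T.unary (m ^ (k + 2)))
      rw [T.size_unary] at hb
      have e6 := simul_spec ht (b := (2 * m ^ (k + 2) + 3) ^ j) (by
        refine hb.trans (le_of_eq ?_); congr 1)
      rw [e1, e2, e3, hPq₀, decFm_enc, e6, hπ, decProof_enc, T.left_node, T.len_unary]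
      exact hpf
    rw [this]

/-- **Global dichotomy.** -/
theorem global :
    (∀ (μ : Fm) (_ : IsUniversal μ) (P : Code → ℕ → Fm) (_ : IsFormalisation μ P)
      (S T₀ : Set Fm) (_ : InClassT S) (_ : InClassT T₀),
      ∃ d : ℕ, ∀ k : ℕ, ∃ (c : Code) (κ : ℕ), κ ≤ d * (k + 1) ∧ HaltsWithin c κ ∧
        theory c κ = T₀ ∧
        (¬ ∃ f : T → T, PolyTime f ∧ ∃ n₀ : ℕ, ∀ n ≥ n₀, ∃ π : List Step,
          f (T.unary n) = encProof π ∧ IsProof S π (rfn (P c κ) μ n)) ∧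
        ∀ a : Code, ∃ n₀ : ℕ, ∀ n ≥ n₀, ∀ w : T, 500 * w.size ≤ n →
          ∀ (y : T) (t : ℕ), Eval a (T.node (T.unary n) w) y t → t ≤ n ^ k →
            ∀ π : List Step, y = encProof π → ¬ IsProof S π (rfn (P c κ) μ n)) ∨
    (∀ (μ : Fm) (_ : IsUniversal μ) (P : Code → ℕ → Fm) (_ : IsFormalisation μ P)
      (S T₀ : Set Fm) (_ : InClassT S) (_ : InClassT T₀),
      ∃ d : ℕ, ∀ k : ℕ, ∃ (c : Code) (κ : ℕ), κ ≤ d * (k + 1) ∧ HaltsWithin c κ ∧
        theory c κ = T₀ ∧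
        ∃ n₀ : ℕ, ∀ n ≥ n₀, ∀ π : List Step, IsProof S π (rfn (P c κ) μ n) →
          n ^ k < (encProof π).size) := by
  refine or_iff_not_imp_right.2 fun hB μ₁ hμ₁ P₁ hP₁ S₁ T₁ hS₁ hT₁ => ?_
  by_contra hA
  refine hB fun μ₂ hμ₂ P₂ hP₂ S₂ T₂ hS₂ hT₂ => ?_
  exact (mixed μ₁ hμ₁ P₁ hP₁ S₁ T₁ hS₁ hT₁ μ₂ hμ₂ P₂ hP₂ S₂ T₂ hS₂ hT₂).resolve_left hA

end Pool.Agent.RL3
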